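import Pool.Agent.U735.SO.Elt

/-!
# Statements of the steps
-/

set_option autoImplicit false
set_option linter.unusedSectionVars false
set_option backward.isDefEq.respectTransparency false
set_option backward.defeqAttrib.useBackward true

open CategoryTheory Limits MonoidalCategory Pretriangulated Triangulated TensorProduct

namespace Pool.Agent.U735.SO

open Pool.Agent.Y116.MT Pool.Agent.V1178.MT Pool.Agent.U735.IL

universe v u v₀ u₀ w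

open Functor.LaxMonoidal

/-- Linear algebra: the Casimir element of the commutant `D` of a semisimple representation `V`.
`g`, `g'` are dual bases of `D` for the trace form. -/
def S_LA : Prop :=
  ∀ (E : Type w) [Field E] [CharZero E] (Γ : Type v₀) (V W : Type w) [AddCommGroup V] [Module E V]
    [Module.Finite E V] [AddCommGroup W] [Module E W] (ρ : Γ → Module.End E V)
    (σ : Γ → Module.End E W),
    (∀ U : Submodule E V, (∀ s, ∀ x ∈ U, ρ s x ∈ U) →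
      ∃ U' : Submodule E V, (∀ s, ∀ x ∈ U', ρ s x ∈ U') ∧ IsCompl U U') →
    ∀ (n : ℕ) (g g' : Fin n → Module.End E V),
      (∀ i s, ρ s ∘ₗ g i = g i ∘ₗ ρ s) → (∀ i s, ρ s ∘ₗ g' i = g' i ∘ₗ ρ s) →
      (∀ d : Module.End E V, (∀ s, ρ s ∘ₗ d = d ∘ₗ ρ s) →
        ∑ i, LinearMap.trace E V (g' i ∘ₗ d) • g i = d) →
      (Function.Bijective (∑ i, g i ∘ₗ g' i : Module.End E V)) ∧
      (∀ (f : V →ₗ[E] W) (v : V),
        (∑ i, ∑ j, ((f ∘ₗ g i) ∘ₗ g j) ⊗ₜ[E] (g' j (g' i v)) : (V →ₗ[E] W) ⊗[E] V) =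
          ∑ j, (f ∘ₗ g j) ⊗ₜ[E] (g' j ((∑ i, g i ∘ₗ g' i : Module.End E V) v))) ∧
      (∀ (f : V →ₗ[E] W) (v : V),
        (∑ j, (f ∘ₗ g j) ⊗ₜ[E] (g' j ((∑ i, g i ∘ₗ g' i : Module.End E V) v)) :
          (V →ₗ[E] W) ⊗[E] V) =
          ∑ j, (f ∘ₗ g j) ⊗ₜ[E] ((∑ i, g i ∘ₗ g' i : Module.End E V) (g' j v))) ∧
      (∀ (m : ℕ) (f : Fin m → (V →ₗ[E] W)) (v : Fin m → V),
        (∀ k s, σ s ∘ₗ f k = f k ∘ₗ ρ s) → ∑ k, f k (v k) = 0 →
        (∑ k, ∑ i, (f k ∘ₗ g i) ⊗ₜ[E] (g' i (v k)) : (V →ₗ[E] W) ⊗[E] V) = 0)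

/-- Linear algebra: a perfect invariant pairing is perfect on the invariants of a semisimple
representation. -/
def S_PERF : Prop :=
  ∀ (E : Type w) [Field E] (Γ : Type v₀) (V W : Type w) [AddCommGroup V] [Module E V]
    [Module.Finite E V] [AddCommGroup W] [Module E W] [Module.Finite E W]
    (ρ : Γ → Module.End E V) (σ : Γ → Module.End E W) (B : V →ₗ[E] W →ₗ[E] E),
    (∀ s, Function.Surjective (ρ s)) →
    (∀ U : Submodule E V, (∀ s, ∀ x ∈ U, ρ s x ∈ U) →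
      ∃ U' : Submodule E V, (∀ s, ∀ x ∈ U', ρ s x ∈ U') ∧ IsCompl U U') →
    (∀ s x y, B (ρ s x) (σ s y) = B x y) →
    (∀ x, (∀ y, B x y = 0) → x = 0) → (∀ y, (∀ x, B x y = 0) → y = 0) →
    (∀ x, (∀ s, ρ s x = x) → (∀ y, (∀ s, σ s y = y) → B x y = 0) → x = 0) ∧
    (∀ y, (∀ s, σ s y = y) → (∀ x, (∀ s, ρ s x = x) → B x y = 0) → y = 0)

section

variable {C₀ : Type u₀} [Category.{v₀} C₀] [Preadditive C₀] [HasZeroObject C₀] [HasShift C₀ ℤ]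
  [∀ n : ℤ, (shiftFunctor C₀ n).Additive] [Pretriangulated C₀] [MonoidalCategory C₀]
  [SymmetricCategory C₀] [TensorTriangulated C₀]
  {C : Type u} [Category.{v} C] [Preadditive C] [HasZeroObject C] [HasShift C ℤ]
  [∀ n : ℤ, (shiftFunctor C n).Additive] [Pretriangulated C] [MonoidalCategory C]
  [SymmetricCategory C] [TensorTriangulated C] {E : Type w} [Field E]
  {Γ : Type*} [Group Γ] {R : Realisation C E}

/-- The invariant classes. -/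
def Ivt (a : GalAct Γ R) (X : C) (x : R.H.obj X) : Prop := ∀ g : Γ, a.ap g X x = x

/-- A map between cohomology groups is equivariant. -/
def Eqv (a : GalAct Γ R) (X Y : C) (φ : R.H.obj X →ₗ[E] R.H.obj Y) : Prop :=
  ∀ (g : Γ) (x : R.H.obj X), φ (a.ap g X x) = a.ap g Y (φ x)

/-- Cohomology detects the morphisms from degrees `≤ 0` to degrees `≥ 0`. -/
def S_FAITH (R : Realisation C E) : Prop :=
  ∀ (X Y : C) (f : X ⟶ Y), Np R X → Nn R Y → (∀ x, hm R f x = 0) → f = 0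

/-- The motive of invariants. -/
def S_INV (t₀ : TStructure C₀) (G : C₀ ⥤ C) (a : GalAct Γ R) : Prop :=
  ∀ Z : C, Nn R Z → ∃ (E₀ : C₀) (c : G.obj E₀ ⟶ Z), Hrt t₀ E₀ ∧ Function.Injective (hm R c) ∧
    (∀ z, Ivt a Z z → ∃ y, hm R c y = z) ∧
    ∀ (A : C₀) (f : G.obj A ⟶ Z), t₀.IsLE A 0 → ∃ f₀ : A ⟶ E₀, f = G.map f₀ ≫ c

/-- Base change is full for morphisms to the unit. -/
def S_FULL (t₀ : TStructure C₀) (G : C₀ ⥤ C) [G.Monoidal] : Prop :=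
  ∀ (A : C₀) (f : G.obj A ⟶ 𝟙_ C), t₀.IsLE A 0 → ∃ f₀ : A ⟶ 𝟙_ C₀,
    f ≫ Functor.LaxMonoidal.ε G = G.map f₀

/-- Dual bases of the motives of invariants. -/
def S_DUAL (t₀ : TStructure C₀) (G : C₀ ⥤ C) (a : GalAct Γ R) : Prop :=
  ∀ (Z Z' : C) (b : Z ⊗ Z' ⟶ 𝟙_ C) (E₀ E₀' : C₀) (c : G.obj E₀ ⟶ Z) (c' : G.obj E₀' ⟶ Z'),
    Hrt t₀ E₀ → Hrt t₀ E₀' → Function.Injective (hm R c) → Function.Injective (hm R c') →
    (∀ z, Ivt a Z z → ∃ y, hm R c y = z) → (∀ z, Ivt a Z' z → ∃ y, hm R c' y = z) →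
    (∀ z, Ivt a Z z → (∀ z', Ivt a Z' z' → hm R b (ex R z z') = 0) → z = 0) →
    (∀ z', Ivt a Z' z' → (∀ z, Ivt a Z z → hm R b (ex R z z') = 0) → z' = 0) →
    ∃ (n : ℕ) (p : Fin n → R.H.obj (G.obj E₀')) (q : Fin n → R.H.obj (G.obj E₀))
      (k : 𝟙_ C ⟶ G.obj E₀' ⊗ G.obj E₀),
      hm R k (un R) = ∑ i, ex R (p i) (q i) ∧
      (∀ x, ∑ i, sc R (hm R b (ex R (hm R c (q i)) (hm R c' x))) • p i = x) ∧
      (∀ y, ∑ i, sc R (hm R b (ex R (hm R c y) (hm R c' (p i)))) • q i = y)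

/-- The key lemma: functionals are represented by sections. -/
def S_KEY (a : GalAct Γ R) : Prop :=
  ∀ (Z Z' : C) (b : Z ⊗ Z' ⟶ 𝟙_ C), Nn R Z → Nn R Z' →
    (∀ z, Ivt a Z z → (∀ z', Ivt a Z' z' → hm R b (ex R z z') = 0) → z = 0) →
    (∀ z', Ivt a Z' z' → (∀ z, Ivt a Z z → hm R b (ex R z z') = 0) → z' = 0) →
    ∀ lam : Z ⟶ 𝟙_ C, ∃ s : 𝟙_ C ⟶ Z', ∀ z, Ivt a Z z →
      hm R b (ex R z (hm R s (un R))) = hm R lam z

variable [RightRigidCategory C]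

/-- A morphism which is an isomorphism between the lowest and the highest cohomology group has a
partial inverse. -/
def S_SPLIT (a : GalAct Γ R) : Prop :=
  ∀ (X Y : C) (L : X ⟶ Y), Nn R X → Np R Y → Function.Bijective (hm R L) →
    a.Semisimple (X ⊗ Yᘁ) → ∃ ψ : Y ⟶ X, (∀ x, hm R ψ (hm R L x) = x) ∧ ψ ≫ L ≫ ψ = ψ

/-- The Künneth components of Chow motives. -/
def S_PART (Chow : ObjectProperty C) (R : Realisation C E) : Prop :=
  ∀ (P : C) (n : ℤ), Chow P → ∃ (S : C) (f : S ⟶ P), Chow S ∧ R.Deg S n ∧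
    Function.Surjective (hm R (f⟦n⟧'))

/-- The cohomology of each object receives a non-zero map from that of a Chow motive. -/
def S_DEV (Chow : ObjectProperty C) (a : GalAct Γ R) : Prop :=
  ∀ M : C, ¬ IsZero (R.H.obj M) → ∃ (P : C) (n : ℤ) (φ : R.H.obj (P⟦n⟧) →ₗ[E] R.H.obj M),
    Chow P ∧ φ ≠ 0 ∧ Eqv a _ _ φ

/-- The linear map `H(S) → H(M)` given by a class in `H(M ⊗ Sᘁ)`. -/
noncomputable def con (R : Realisation C E) (M S : C) (z : R.H.obj (M ⊗ Sᘁ)) :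
    R.H.obj S →ₗ[E] R.H.obj M where
  toFun v := hm R ((α_ M Sᘁ S).hom ≫ M ◁ ε_ S Sᘁ ≫ (ρ_ M).hom) (ex R z v)
  map_add' x y := by rw [ex_add_right, map_add]
  map_smul' c x := by rw [ex_smul_right, map_smul]; rfl

/-- The Casimir operators. -/
def S_KAPPA (t₀ : TStructure C₀) (G : C₀ ⥤ C) (a : GalAct Γ R) : Prop :=
  ∀ (M S : C), Nn R M → R.Deg S 0 → a.Semisimple (S ⊗ Sᘁ) →
    ∃ (E₀ : C₀) (c : G.obj E₀ ⟶ M ⊗ Sᘁ) (n : ℕ) (p q : Fin n → R.H.obj (S ⊗ Sᘁ))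
      (κ : G.obj E₀ ⊗ S ⟶ G.obj E₀ ⊗ S) (u : S ⟶ S)
      (r : Fin n → R.H.obj (G.obj E₀) →ₗ[E] R.H.obj (G.obj E₀)),
      Hrt t₀ E₀ ∧ Function.Injective (hm R c) ∧ (∀ z, Ivt a _ z → ∃ y, hm R c y = z) ∧
      (∀ i, Ivt a _ (p i)) ∧ (∀ i, Ivt a _ (q i)) ∧
      (∀ d : Module.End E (R.H.obj S), Eqv a S S d →
        ∑ i, LinearMap.trace E _ (con R S S (q i) ∘ₗ d) • con R S S (p i) = d) ∧
      (∀ i e, con R M S (hm R c (r i e)) = con R M S (hm R c e) ∘ₗ con R S S (p i)) ∧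
      (∀ e v, hm R κ (ex R e v) = ∑ i, ex R (r i e) (con R S S (q i) v)) ∧
      (∀ v, hm R u v = ∑ i, con R S S (p i) (con R S S (q i) v))

/-- Motivic subobjects of the lowest cohomology group. -/
def S_SUB (a : GalAct Γ R) : Prop :=
  ∀ (M S : C) (φ : R.H.obj S →ₗ[E] R.H.obj M), Nn R M → R.Deg S 0 → a.Semisimple S →
    a.Semisimple (S ⊗ Sᘁ) → φ ≠ 0 → Eqv a S M φ →
    ∃ (A : C) (f : A ⟶ M), R.Deg A 0 ∧ ¬ IsZero A ∧ Function.Injective (hm R f)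

end

end Pool.Agent.U735.SO
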