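import Pool.Agent.U735.SO.Cls
import Pool.Agent.U735.IL.Final

/-!
# Assembly: the motivic t-structure from the Künneth components
-/

set_option autoImplicit false
set_option linter.unusedSectionVars false
set_option linter.unusedSimpArgs false
set_option backward.isDefEq.respectTransparency false
set_option backward.defeqAttrib.useBackward true

open CategoryTheory Limits MonoidalCategory Pretriangulated Triangulated TensorProduct

namespace Pool.Agent.U735.SO

open Pool.Agent.Y116.MT Pool.Agent.V1178.MT Pool.Agent.U735.IL Pool.Agent.U735.TC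

universe v u v₀ u₀ w

open Functor.LaxMonoidal

section

variable {C : Type u} [Category.{v} C] [Preadditive C] [HasZeroObject C] [HasShift C ℤ]
  [∀ n : ℤ, (shiftFunctor C n).Additive] [Pretriangulated C] [IsTriangulated C]
  [MonoidalCategory C] [SymmetricCategory C] [TensorTriangulated C] [MonoidalPreadditive C]
  [RightRigidCategory C] {E : Type w} [Field E]
  {Γ : Type*} [Group Γ] {R : Realisation C E} {a : GalAct Γ R} {Chow : ObjectProperty C}

/-- The endomorphisms of a shifted object. -/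
noncomputable def endShift (S : C) (n : ℤ) : S⟦n⟧ ⊗ ((S⟦n⟧)ᘁ : C) ≅ S ⊗ (Sᘁ : C) :=
  whiskerLeftIso _ ((shiftFunctorCompIsoId C n (-n) (by omega)).symm.app _ ≪≫
    (shiftFunctor C (-n)).mapIso (IL.dualShift S n)) ≪≫ shiftTensorIso S (Sᘁ : C) n

/-- Motivic subobjects of the lowest cohomology groups. -/
theorem lowest_of (hCC : ChowClosed Chow)
    (hss : ∀ (P : C) (n : ℤ), Chow P → a.Semisimple (P⟦n⟧))
    (hPart : S_PART Chow R) (hDev : S_DEV Chow a) (hSub : S_SUB a) :
    LowestHasSub (Λ := Unit) (E := fun _ => E) (fun _ => R) () := by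
  intro M hM hM0
  obtain ⟨P, n, φ, hP, hφ, hφe⟩ := hDev M hM0
  obtain ⟨S, f, hS, hSd, hf⟩ := hPart P n hP
  have h1 : a.Semisimple (S⟦n⟧ ⊗ ((S⟦n⟧)ᘁ : C)) := by
    refine GalAct.Semisimple.iso (hss (S ⊗ (Sᘁ : C)) 0 (hCC.tensor _ _ hS (hCC.dual _ hS))) ?_
    exact (shiftFunctorZero C ℤ).app _ ≪≫ (endShift S n).symm
  obtain ⟨A, k, hA, hA0, hk⟩ := hSub M (S⟦n⟧) (φ ∘ₗ hm R (f⟦n⟧')) hM (hSd.shift n 0 (by omega))
    (hss S n hS) h1 (fun h => hφ (by
      ext x
      obtain ⟨y, rfl⟩ := hf x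
      exact LinearMap.congr_fun h y)) (fun g x => by
      rw [LinearMap.comp_apply, LinearMap.comp_apply, ← ap_hm, hφe])
  exact ⟨A, k, hA0, fun _ i hi => hA i hi, (ModuleCat.mono_iff_injective _).2 hk⟩

/-- The t-structure. -/
theorem exists_tstr (hid : ∀ e : 𝟙_ C ⟶ 𝟙_ C, e ≫ e = e → e = 0 ∨ e = 𝟙 _)
    (hCC : ChowClosed Chow) (hss : ∀ (P : C) (n : ℤ), Chow P → a.Semisimple (P⟦n⟧))
    (hc : Conservative R) (hPart : S_PART Chow R) (hDev : S_DEV Chow a) (hSub : S_SUB a) :
    ∃ t : TStructure C, TExact t R := by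
  obtain ⟨t, ht⟩ := exists_motivic (Λ := Unit) (E := fun _ => E) (R := fun _ => R) (l := ()) hid hc
    (lowest_of hCC hss hPart hDev hSub)
  exact ⟨t, ht.exact_le (), ht.exact_ge ()⟩

end

end Pool.Agent.U735.SO
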