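import Pool.Agent.U735.SO.Cls
import Pool.Agent.U735.IL.Final

/-!
# The motive of invariants, faithfulness and conservativity
-/

set_option autoImplicit false
set_option linter.unusedSectionVars false
set_option linter.unusedSimpArgs false
set_option backward.isDefEq.respectTransparency false
set_option backward.defeqAttrib.useBackward true

open CategoryTheory Limits MonoidalCategory Pretriangulated Triangulated TensorProduct

namespace Pool.Agent.U735.SO

open Pool.Agent.Y116.MT Pool.Agent.V1178.MT Pool.Agent.U735.IL Pool.Agent.U735.TC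

universe v u v₀ u₀ w

section

variable {C₀ : Type u₀} [Category.{v₀} C₀] [Preadditive C₀] [HasZeroObject C₀] [HasShift C₀ ℤ]
  [∀ n : ℤ, (shiftFunctor C₀ n).Additive] [Pretriangulated C₀] [IsTriangulated C₀]
  [MonoidalCategory C₀] [SymmetricCategory C₀] [TensorTriangulated C₀] [MonoidalPreadditive C₀]
  [RightRigidCategory C₀]
  {C : Type u} [Category.{v} C] [Preadditive C] [HasZeroObject C] [HasShift C ℤ]
  [∀ n : ℤ, (shiftFunctor C n).Additive] [Pretriangulated C]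
  [MonoidalCategory C] [SymmetricCategory C] [TensorTriangulated C] [MonoidalPreadditive C]
  {E : Type w} [Field E] {Γ : Type*} [Group Γ]
  {R₀ : Realisation C₀ E} {R : Realisation C E} {a : GalAct Γ R} {t₀ : TStructure C₀}
  {G : C₀ ⥤ C} [G.Monoidal] [G.Additive] [G.CommShift ℤ]

/-- The comparison of the realisations. -/
noncomputable def ph (F : FunctionField G R₀ R a) (A : C₀) :
    R.H.obj (G.obj A) →ₗ[E] R₀.H.obj A := (F.iso.hom.app A).hom

lemma ph_bij (F : FunctionField G R₀ R a) (A : C₀) : Function.Bijective (ph F A) :=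
  (ConcreteCategory.isIso_iff_bijective (F.iso.hom.app A)).1 inferInstance

lemma ph_hm (F : FunctionField G R₀ R a) {A B : C₀} (f : A ⟶ B) (x : R.H.obj (G.obj A)) :
    ph F B (hm R (G.map f) x) = hm R₀ f (ph F A x) :=
  LinearMap.congr_fun (congrArg ModuleCat.Hom.hom (F.iso.hom.naturality f)) x

lemma ivt_G (F : FunctionField G R₀ R a) {A : C₀} (x : R.H.obj (G.obj A)) :
    Ivt a (G.obj A) x := by
  intro g
  rw [GalAct.ap, F.trivial]
  rfl

lemma ivt_hm {X Y : C} (f : X ⟶ Y) {x : R.H.obj X} (hx : Ivt a X x) : Ivt a Y (hm R f x) := by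
  intro g
  rw [ap_hm, hx g]

lemma bij_G_iff (F : FunctionField G R₀ R a) {A B : C₀} (f : A ⟶ B) :
    Function.Bijective (hm R (G.map f)) ↔ Function.Bijective (hm R₀ f) := by
  have h1 : (ph F B) ∘ (hm R (G.map f)) = (hm R₀ f) ∘ (ph F A) := by
    ext x
    exact ph_hm F f x
  constructor
  · intro h
    have h2 : Function.Bijective ((hm R₀ f) ∘ (ph F A)) := h1 ▸ (ph_bij F B).comp h
    exact (Function.Bijective.of_comp_iff _ (ph_bij F A)).1 h2
  · intro h
    have h2 : Function.Bijective ((ph F B) ∘ (hm R (G.map f))) := h1 ▸ h.comp (ph_bij F A)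
    exact (Function.Bijective.of_comp_iff' (ph_bij F B) _).1 h2

lemma isZero_G (F : FunctionField G R₀ R a) {A : C₀} {i : ℤ} (h : IsZero (R₀.H.obj (A⟦i⟧))) :
    IsZero (R.H.obj ((G.obj A)⟦i⟧)) :=
  h.of_iso (R.H.mapIso ((G.commShiftIso i).symm.app A) ≪≫ F.iso.app (A⟦i⟧))

lemma nn_G (F : FunctionField G R₀ R a) {A : C₀} (h : Nn R₀ A) : Nn R (G.obj A) :=
  fun i hi => isZero_G F (h i hi)

lemma np_G (F : FunctionField G R₀ R a) {A : C₀} (h : Np R₀ A) : Np R (G.obj A) :=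
  fun i hi => isZero_G F (h i hi)

lemma deg_G (F : FunctionField G R₀ R a) {A : C₀} (h : R₀.Deg A 0) : R.Deg (G.obj A) 0 :=
  fun i hi => isZero_G F (h i hi)

/-- The lowest cohomology object. -/
lemma exists_low (hG : Good t₀ R₀) {N : C₀} (hN : Nn R₀ N) : ∃ (E₀ : C₀) (ι : E₀ ⟶ N),
    Hrt t₀ E₀ ∧ Function.Bijective (hm R₀ ι) ∧
      ∀ (A : C₀) (f : A ⟶ N), t₀.IsLE A 0 → ∃ f', f = f' ≫ ι := by
  obtain ⟨A, B, hA, hB, f, g, h, hT⟩ := t₀.exists_triangle N 0 1 rfl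
  have hN1 : t₀.IsGE N 0 := isGE_of_H hG.ht hG.he hG.hu hG.hid hG.hle hG.hge hN
  have hA1 : t₀.IsLE A 0 := ⟨hA⟩
  have hB1 : t₀.IsGE B 1 := ⟨hB⟩
  have hA2 : t₀.IsGE A 0 := isGE1 hT hN1 (t₀.isGE_of_ge B (0 - 1) 1)
  have hf : IsIso (R₀.H.map f) := (vIso_zero_iff f).1
    (VIso.of₃ hT (hG.he.isGE hB1 _ (by omega)) (hG.he.isGE hB1 _ (by omega)))
  refine ⟨A, f, ⟨hA1, hA2⟩, (isIso_iff_bij f).1 hf, fun X k hX => ?_⟩
  exact ce2 hT k (t₀.zero_of_isLE_of_isGE _ 0 1 (by omega) hX hB1)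

lemma isIso_of_bij (hG : Good t₀ R₀) {A B : C₀} (hA : Hrt t₀ A) (hB : Hrt t₀ B) (f : A ⟶ B)
    (hf : Function.Bijective (hm R₀ f)) : IsIso f := by
  have hc : Conservative R₀ := fun _ hX =>
    conservative hG.ht hG.he hG.hu hG.hid hG.hle hG.hge hX
  exact isIso_of_vIso hc hG.he (a := 0) hA hB ((vIso_zero_iff f).2 ((isIso_iff_bij f).2 hf))

/-- The motive of invariants. -/
theorem t_INV (hG : Good t₀ R₀) (F : FunctionField G R₀ R a) : S_INV t₀ G a := by
  intro Z hZ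
  obtain ⟨N, -, c, -, hN, hc, hs⟩ := F.spread Z hZ (𝟙_ C₀) 0
  obtain ⟨E₀, ι, hE, hι, hu⟩ := exists_low hG hN
  have hGι : Function.Bijective (hm R (G.map ι)) := (bij_G_iff F ι).2 hι
  have hcinj : Function.Injective (hm R (G.map ι ≫ c)) := by
    intro x y hxy
    rw [hm_comp, hm_comp] at hxy
    exact hGι.1 (hc hxy)
  have hcs : ∀ z, Ivt a Z z → ∃ y, hm R (G.map ι ≫ c) y = z := by
    intro z hz
    obtain ⟨y, hy⟩ := hs z hz
    obtain ⟨x, rfl⟩ := hGι.2 y
    exact ⟨x, by rw [hm_comp]; exact hy⟩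
  refine ⟨E₀, G.map ι ≫ c, hE, hcinj, hcs, fun A f hA => ?_⟩
  obtain ⟨c₀, hc₀⟩ : ∃ c₀, c₀ = G.map ι ≫ c := ⟨_, rfl⟩
  rw [← hc₀] at hcinj hcs ⊢
  obtain ⟨N', b', c', hb, hN', hc', hs'⟩ := F.spread Z hZ (A ⊞ E₀)
    (G.map biprod.fst ≫ f + G.map biprod.snd ≫ c₀)
  have e1 : f = G.map (biprod.inl ≫ b') ≫ c' := by
    rw [Functor.map_comp, Category.assoc, ← hb, Preadditive.comp_add, ← Functor.map_comp_assoc,
      ← Functor.map_comp_assoc]
    simp
  have e2 : c₀ = G.map (biprod.inr ≫ b') ≫ c' := by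
    rw [Functor.map_comp, Category.assoc, ← hb, Preadditive.comp_add, ← Functor.map_comp_assoc,
      ← Functor.map_comp_assoc]
    simp
  obtain ⟨E₁, ι', hE', hι', hu'⟩ := exists_low hG hN'
  obtain ⟨f₁, hf₁⟩ := hu' A (biprod.inl ≫ b') hA
  obtain ⟨u', hu₁⟩ := hu' E₀ (biprod.inr ≫ b') hE.1
  have hGι' : Function.Bijective (hm R (G.map ι')) := (bij_G_iff F ι').2 hι'
  have e3 : ∀ x, hm R c₀ x = hm R c' (hm R (G.map ι') (hm R (G.map u') x)) := by
    intro x
    rw [e2, hu₁, Functor.map_comp]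
    simp
  have hbij : Function.Bijective (hm R (G.map u')) := by
    constructor
    · intro x y hxy
      apply hcinj
      rw [e3, e3, hxy]
    · intro y
      obtain ⟨x, hx⟩ := hcs (hm R c' (hm R (G.map ι') y))
        (ivt_hm _ (ivt_hm _ (ivt_G F y)))
      refine ⟨x, hGι'.1 (hc' ?_)⟩
      rw [e3] at hx
      exact hx
  have hiso : IsIso u' := isIso_of_bij hG hE hE' u' ((bij_G_iff F u').1 hbij)
  refine ⟨f₁ ≫ inv u', ?_⟩
  have e4 : c₀ = G.map (u' ≫ ι') ≫ c' := by rw [← hu₁]; exact e2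
  rw [e1, hf₁, e4, ← Functor.map_comp_assoc]
  congr 2
  simp

/-- Base change is full for morphisms to the unit. -/
theorem t_FULL (hG : Good t₀ R₀) (hI : S_INV t₀ G a) (F : FunctionField G R₀ R a) :
    S_FULL (C := C) t₀ G := by
  intro A f hA
  obtain ⟨E₀, c, hE, hc, -, hu⟩ := hI (𝟙_ C) (Nn.of_deg deg_un)
  obtain ⟨i₀, hi₀⟩ := hu (𝟙_ C₀) (Functor.Monoidal.εIso G).inv hG.hu.1
  have hib : Function.Bijective (hm R (Functor.Monoidal.εIso G).inv) :=
    (isIso_iff_bij _).1 inferInstance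
  have e1 : ∀ x, hm R (Functor.Monoidal.εIso G).inv x = hm R c (hm R (G.map i₀) x) := by
    intro x
    rw [hi₀, hm_comp]
  have hbij : Function.Bijective (hm R (G.map i₀)) := by
    constructor
    · intro x y hxy
      apply hib.1
      rw [e1, e1, hxy]
    · intro y
      obtain ⟨x, hx⟩ := hib.2 (hm R c y)
      refine ⟨x, hc ?_⟩
      rw [← e1, hx]
  have hiso : IsIso i₀ := isIso_of_bij hG hG.hu hE i₀ ((bij_G_iff F i₀).1 hbij)
  obtain ⟨f₁, hf₁⟩ := hu A f hA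
  have e2 : c ≫ Functor.LaxMonoidal.ε G = G.map (inv i₀) := by
    rw [← cancel_epi (G.map i₀), ← reassoc_of% hi₀, ← Functor.map_comp, IsIso.hom_inv_id,
      CategoryTheory.Functor.map_id]
    exact (Functor.Monoidal.εIso G).inv_hom_id
  exact ⟨f₁ ≫ inv i₀, by rw [hf₁, Category.assoc, e2, Functor.map_comp]⟩

/-- The key lemma. -/
theorem t_KEY (hI : S_INV t₀ G a) (hDu : S_DUAL t₀ G a) : S_KEY a := by
  intro Z Z' b hZ hZ' h1 h2 lam
  obtain ⟨E₀, c, hE, hc, hs, -⟩ := hI Z hZ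
  obtain ⟨E₁, c', hE', hc', hs', -⟩ := hI Z' hZ'
  obtain ⟨n, p, q, k, hk, -, hq⟩ := hDu Z Z' b E₀ E₁ c c' hE hE' hc hc' hs hs' h1 h2
  refine ⟨k ≫ (c' ⊗ₘ (c ≫ lam)) ≫ (ρ_ Z').hom, fun z hz => ?_⟩
  obtain ⟨y, rfl⟩ := hs z hz
  have e1 : hm R (k ≫ (c' ⊗ₘ (c ≫ lam)) ≫ (ρ_ Z').hom) (un R) =
      ∑ i, sc R (hm R lam (hm R c (q i))) • hm R c' (p i) := by
    rw [hm_comp, hk, map_sum]
    refine Finset.sum_congr rfl fun i _ => ?_
    simp
  rw [e1, ex_sum_right, map_sum]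
  apply sc_inj
  rw [map_sum]
  conv_rhs => rw [← hq y]
  rw [map_sum, map_sum, map_sum]
  refine Finset.sum_congr rfl fun i _ => ?_
  rw [ex_smul_right, map_smul, map_smul, map_smul, map_smul, map_smul, smul_eq_mul, smul_eq_mul,
    mul_comm]

variable [RightRigidCategory C]

lemma map_zero_shift {X Y : C} (f : X ⟶ Y) (h : R.H.map f = 0) : R.H.map (f⟦(0 : ℤ)⟧') = 0 := by
  have h1 : R.H.map (f⟦(0 : ℤ)⟧') = R.H.map ((shiftFunctorZero C ℤ).hom.app X) ≫ R.H.map f ≫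
      R.H.map ((shiftFunctorZero C ℤ).inv.app Y) := by
    rw [← Functor.map_comp, ← Functor.map_comp]
    congr 1
    exact shiftZero' (A := ℤ) (f := f)
  rw [h1, h, zero_comp, comp_zero]

/-- Cohomology detects the morphisms from degrees `≤ 0` to degrees `≥ 0`. -/
theorem t_FAITH (hG : Good t₀ R₀) (hI : S_INV t₀ G a) (F : FunctionField G R₀ R a)
    (hD : DualityCompatible R) : S_FAITH R := by
  intro X Y f hX hY hf
  apply eq_zero_of_nm
  have hZ : Nn R (Y ⊗ (Xᘁ : C)) := fun i hi => tensor_vanish_neg hY (nn_dual hD hX) hi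
  have hf0 : R.H.map f = 0 := hm_ext_zero hf
  have h1 : R.H.map (f ▷ (Xᘁ : C)) = 0 := by
    rw [← MonoidalCategory.tensorHom_id]
    apply Pool.Agent.U735.TB.map_tensor_zero
    intro i
    rcases lt_trichotomy i 0 with h | h | h
    · exact Or.inl ((hY i h).eq_of_tgt _ _)
    · left
      subst h
      exact map_zero_shift f hf0
    · exact Or.inl ((hX i h).eq_of_src _ _)
  have h2 : R.H.map (nm f) = 0 := by
    rw [nm, Functor.map_comp, h1, comp_zero]
  obtain ⟨E₀, c, hE, hc, -, hu⟩ := hI _ hZ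
  obtain ⟨f₀, hf₀⟩ := hu (𝟙_ C₀) ((Functor.Monoidal.εIso G).inv ≫ nm f) hG.hu.1
  have h3 : f₀ = 0 := by
    apply faithful_heart hG.ht hG.he hG.hu hG.hid hG.hu hE
    apply hm_ext_zero (R := R₀)
    intro y
    obtain ⟨x, rfl⟩ := (ph_bij F _).2 y
    rw [← ph_hm]
    have h4 : hm R (G.map f₀) x = 0 := by
      apply hc
      rw [map_zero, ← hm_comp, ← hf₀, hm_comp]
      have : hm R (nm f) = 0 := by
        rw [hm, h2]
        rfl
      rw [this]
      rfl
    rw [h4, map_zero]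
  rw [h3, Functor.map_zero, zero_comp] at hf₀
  rw [← cancel_epi (Functor.Monoidal.εIso G).inv, hf₀, comp_zero]

/-- The realisation is conservative. -/
theorem t_CONS (hF : S_FAITH R) : Conservative R := by
  intro X hX
  rw [IsZero.iff_id_eq_zero]
  refine hF X X _ (fun i _ => hX i) (fun i _ => hX i) fun x => ?_
  have h1 : IsZero (R.H.obj X) :=
    (hX 0).of_iso (R.H.mapIso ((shiftFunctorZero C ℤ).app X).symm)
  have h2 : Subsingleton (R.H.obj X) := ModuleCat.subsingleton_of_isZero h1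
  exact h2.elim _ _

end

end Pool.Agent.U735.SO
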