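import Pool.Agent.U735.SO.Stm

/-!
# The linear maps given by classes, duality, and the group action
-/

set_option autoImplicit false
set_option linter.unusedSectionVars false
set_option linter.unusedSimpArgs false
set_option backward.isDefEq.respectTransparency false
set_option backward.defeqAttrib.useBackward true

open CategoryTheory Limits MonoidalCategory Pretriangulated Triangulated TensorProduct

namespace Pool.Agent.U735.SO

open Pool.Agent.Y116.MT Pool.Agent.V1178.MT Pool.Agent.U735.IL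

universe v u v₀ u₀ w

open Functor.LaxMonoidal

section

variable {C : Type u} [Category.{v} C] [Preadditive C] [HasZeroObject C] [HasShift C ℤ]
  [∀ n : ℤ, (shiftFunctor C n).Additive] [Pretriangulated C] [MonoidalCategory C]
  [SymmetricCategory C] [TensorTriangulated C] {E : Type w} [Field E]
  {Γ : Type*} [Group Γ] {R : Realisation C E} {a : GalAct Γ R}

/-- The action commutes with the maps on cohomology. -/
@[simp] lemma ap_hm {X Y : C} (f : X ⟶ Y) (g : Γ) (x : R.H.obj X) :
    a.ap g Y (hm R f x) = hm R f (a.ap g X x) :=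
  LinearMap.congr_fun (congrArg ModuleCat.Hom.hom ((a.act g).hom.naturality f)) x

@[simp] lemma ap_ex {X Y : C} (g : Γ) (x : R.H.obj X) (y : R.H.obj Y) :
    a.ap g (X ⊗ Y) (ex R x y) = ex R (a.ap g X x) (a.ap g Y y) := by
  have := a.monoidal g
  exact LinearMap.congr_fun (congrArg ModuleCat.Hom.hom
    (NatTrans.IsMonoidal.tensor (τ := (a.act g).hom) X Y)) (x ⊗ₜ[E] y)

@[simp] lemma ap_un (g : Γ) : a.ap g (𝟙_ C) (un R) = un R := by
  have := a.monoidal g
  exact LinearMap.congr_fun (congrArg ModuleCat.Hom.hom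
    (NatTrans.IsMonoidal.unit (τ := (a.act g).hom))) (1 : E)

@[simp] lemma ap_one (g : Γ) (w : R.H.obj (𝟙_ C)) : a.ap g (𝟙_ C) w = w := by
  conv_lhs => rw [eq_sc w]
  rw [map_smul, ap_un, ← eq_sc]

lemma ap_surjective (g : Γ) (X : C) : Function.Surjective (a.ap g X) := by
  intro x
  refine ⟨((a.act g).inv.app X).hom x, ?_⟩
  have h := congrArg (fun f => (f.app X).hom x) (a.act g).inv_hom_id
  exact h

lemma eqv_hm {X Y : C} (f : X ⟶ Y) : Eqv a X Y (hm R f) := fun g x => (ap_hm f g x).symm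

lemma GalAct.Semisimple.iso {X Y : C} (h : a.Semisimple X) (e : X ≅ Y) : a.Semisimple Y := by
  intro U hU
  obtain ⟨U', h1, h2⟩ := h (U.comap (hm R e.hom)) (fun g x hx => by
    rw [Submodule.mem_comap, ← ap_hm]
    exact hU g _ hx)
  have hb : Function.Bijective (hm R e.hom) :=
    (isIso_iff_bij e.hom).1 inferInstance
  let L : R.H.obj X ≃ₗ[E] R.H.obj Y := LinearEquiv.ofBijective (hm R e.hom) hb
  refine ⟨U'.map (hm R e.hom), fun g y hy => ?_, ?_⟩
  · obtain ⟨x, hx, rfl⟩ := hy
    rw [ap_hm]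
    exact ⟨_, h1 g x hx, rfl⟩
  · have h3 : U = (U.comap (hm R e.hom)).map (hm R e.hom) :=
      (Submodule.map_comap_eq_of_surjective hb.2 U).symm
    rw [h3]
    exact h2.map (Submodule.orderIsoMapComap L)

variable [RightRigidCategory C]

/-- The duality pairing. -/
noncomputable def pr (R : Realisation C E) {X : C} (y : R.H.obj Xᘁ) (x : R.H.obj X) : E :=
  sc R (hm R (ε_ X Xᘁ) (ex R y x))

lemma hm_ev {X : C} (y : R.H.obj Xᘁ) (x : R.H.obj X) :
    hm R (ε_ X Xᘁ) (ex R y x) = pr R y x • un R := eq_sc _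

lemma pr_nondeg_left (hD : DualityCompatible R) {X : C} (x : R.H.obj X)
    (h : ∀ y : R.H.obj Xᘁ, pr R y x = 0) : x = 0 := by
  refine (hD X).1 x fun y => ?_
  have h1 : hm R (ε_ X Xᘁ) (ex R y x) = 0 := by rw [hm_ev, h, zero_smul]
  exact h1

lemma pr_nondeg_right (hD : DualityCompatible R) {X : C} (y : R.H.obj Xᘁ)
    (h : ∀ x : R.H.obj X, pr R y x = 0) : y = 0 := by
  refine (hD X).2 y fun x => ?_
  have h1 : hm R (ε_ X Xᘁ) (ex R y x) = 0 := by rw [hm_ev, h, zero_smul]
  exact h1

/-- The pairing as a bilinear map. -/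
noncomputable def prB (R : Realisation C E) (X : C) : R.H.obj Xᘁ →ₗ[E] R.H.obj X →ₗ[E] E :=
  LinearMap.mk₂ E (fun y x => pr R y x)
    (fun x y z => by simp [pr, ex_add_left])
    (fun c x y => by simp [pr, ex_smul_left])
    (fun x y z => by simp [pr, ex_add_right])
    (fun c x y => by simp [pr, ex_smul_right])

@[simp] lemma prB_apply {X : C} (y : R.H.obj Xᘁ) (x : R.H.obj X) : prB R X y x = pr R y x := rfl

@[simp] lemma pr_ap {X : C} (g : Γ) (y : R.H.obj Xᘁ) (x : R.H.obj X) :
    pr R (a.ap g Xᘁ y) (a.ap g X x) = pr R y x := by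
  rw [pr, ← ap_ex, ← ap_hm, ap_one]
  rfl

@[simp] lemma con_ex (M S : C) (m : R.H.obj M) (y : R.H.obj Sᘁ) (v : R.H.obj S) :
    con R M S (ex R m y) v = pr R y v • m := by
  change hm R _ (ex R (ex R m y) v) = _
  simp [pr]

/-- The map `con` is linear. -/
noncomputable def conB (R : Realisation C E) (M S : C) :
    R.H.obj (M ⊗ Sᘁ) →ₗ[E] (R.H.obj S →ₗ[E] R.H.obj M) where
  toFun z := con R M S z
  map_add' x y := by
    ext v
    change hm R _ (ex R (x + y) v) = hm R _ (ex R x v) + hm R _ (ex R y v)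
    rw [ex_add_left, map_add]
  map_smul' c x := by
    ext v
    change hm R _ (ex R (c • x) v) = c • hm R _ (ex R x v)
    rw [ex_smul_left, map_smul]

@[simp] lemma conB_apply (M S : C) (z : R.H.obj (M ⊗ Sᘁ)) : conB R M S z = con R M S z := rfl

/-- The cohomology of the dual is in degrees `≥ 0`. -/
lemma nn_dual (hD : DualityCompatible R) {X : C} (hX : Np R X) : Nn R (Xᘁ : C) := by
  intro i hi
  have h1 : IsZero (R.H.obj (X⟦-i⟧)) := hX (-i) (by omega)
  have h2 : IsZero (R.H.obj ((X⟦-i⟧)ᘁ : C)) := by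
    rw [ModuleCat.isZero_iff_subsingleton]
    have h3 : Subsingleton (R.H.obj (X⟦-i⟧)) := ModuleCat.subsingleton_of_isZero h1
    refine ⟨fun x y => ?_⟩
    rw [pr_nondeg_right hD x (fun z => ?_), pr_nondeg_right hD y (fun z => ?_)]
    · rw [h3.elim z 0]; simp [pr]
    · rw [h3.elim z 0]; simp [pr]
  refine h2.of_iso (R.H.mapIso ?_)
  exact (shiftFunctor C i).mapIso (IL.dualShift X (-i)).symm ≪≫
    (shiftFunctorCompIsoId C (-i) i (by omega)).app _

lemma np_dual (hD : DualityCompatible R) {X : C} (hX : Nn R X) : Np R (Xᘁ : C) := by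
  intro i hi
  have h1 : IsZero (R.H.obj (X⟦-i⟧)) := hX (-i) (by omega)
  have h2 : IsZero (R.H.obj ((X⟦-i⟧)ᘁ : C)) := by
    rw [ModuleCat.isZero_iff_subsingleton]
    have h3 : Subsingleton (R.H.obj (X⟦-i⟧)) := ModuleCat.subsingleton_of_isZero h1
    refine ⟨fun x y => ?_⟩
    rw [pr_nondeg_right hD x (fun z => ?_), pr_nondeg_right hD y (fun z => ?_)]
    · rw [h3.elim z 0]; simp [pr]
    · rw [h3.elim z 0]; simp [pr]
  refine h2.of_iso (R.H.mapIso ?_)
  exact (shiftFunctor C i).mapIso (IL.dualShift X (-i)).symm ≪≫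
    (shiftFunctorCompIsoId C (-i) i (by omega)).app _

/-- The linear maps given by classes: injectivity. -/
lemma con_inj (hD : DualityCompatible R) {M S : C} (hM : Nn R M) (hS : Np R S)
    (z : R.H.obj (M ⊗ Sᘁ)) (hz : con R M S z = 0) : z = 0 := by
  have h1 := mu_iso hM (nn_dual hD hS)
  have hb := (ConcreteCategory.isIso_iff_bijective (μ R.H M Sᘁ)).1 h1
  obtain ⟨t, rfl⟩ := hb.2 z
  -- the dual space
  let L : R.H.obj Sᘁ →ₗ[E] Module.Dual E (R.H.obj S) := prB R S
  have hL : Function.Injective L := by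
    rw [← LinearMap.ker_eq_bot, LinearMap.ker_eq_bot']
    intro y hy
    exact pr_nondeg_right hD y fun x => LinearMap.congr_fun hy x
  have h2 : Function.Injective (LinearMap.lTensor (R.H.obj M) L) :=
    Module.Flat.lTensor_preserves_injective_linearMap L hL
  have h3 : ∀ s : R.H.obj M ⊗[E] R.H.obj Sᘁ, ∀ v : R.H.obj S,
      con R M S ((μ R.H M Sᘁ).hom s) v =
        dualTensorHom E (R.H.obj S) (R.H.obj M)
          (TensorProduct.comm E _ _ (LinearMap.lTensor (R.H.obj M) L s)) v := by
    intro s v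
    induction s using TensorProduct.induction_on with
    | zero =>
      have : (μ R.H M Sᘁ).hom (0 : R.H.obj M ⊗[E] R.H.obj Sᘁ) = 0 := map_zero _
      rw [this]
      have h4 : con R M S (0 : R.H.obj (M ⊗ Sᘁ)) = 0 := (conB R M S).map_zero
      rw [h4]
      simp
    | tmul m y =>
      have : (μ R.H M Sᘁ).hom (m ⊗ₜ[E] y) = ex R m y := rfl
      rw [this, con_ex]
      simp [L]
    | add s s' h h' =>
      have : (μ R.H M Sᘁ).hom (s + s') = (μ R.H M Sᘁ).hom s + (μ R.H M Sᘁ).hom s' := map_add _ _ _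
      rw [this]
      have h4 : con R M S ((μ R.H M Sᘁ).hom s + (μ R.H M Sᘁ).hom s') =
        con R M S ((μ R.H M Sᘁ).hom s) + con R M S ((μ R.H M Sᘁ).hom s') :=
        (conB R M S).map_add _ _
      rw [h4, LinearMap.add_apply, h, h', map_add, map_add, map_add, LinearMap.add_apply]
  have h4 : dualTensorHom E (R.H.obj S) (R.H.obj M)
      (TensorProduct.comm E _ _ (LinearMap.lTensor (R.H.obj M) L t)) = 0 := by
    ext v
    rw [← h3, hz]
  have h5 : Function.Injective (dualTensorHom E (R.H.obj S) (R.H.obj M)) :=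
    dualTensorHom_bijective.1
  have h6 : TensorProduct.comm E _ _ (LinearMap.lTensor (R.H.obj M) L t) = 0 := by
    apply h5
    rw [map_zero]
    exact h4
  have h7 : LinearMap.lTensor (R.H.obj M) L t = 0 := by simpa using h6
  have h8 : t = 0 := h2 (by rw [h7, map_zero])
  rw [h8]
  exact map_zero _

/-- The linear maps given by classes: surjectivity. -/
lemma con_surj (hD : DualityCompatible R) {M S : C} (f : R.H.obj S →ₗ[E] R.H.obj M) :
    ∃ z, con R M S z = f := by
  let L : R.H.obj Sᘁ →ₗ[E] Module.Dual E (R.H.obj S) := prB R S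
  have hL : Function.Injective L := by
    rw [← LinearMap.ker_eq_bot, LinearMap.ker_eq_bot']
    intro y hy
    exact pr_nondeg_right hD y fun x => LinearMap.congr_fun hy x
  have hL' : Function.Injective (prB R S).flip := by
    rw [← LinearMap.ker_eq_bot, LinearMap.ker_eq_bot']
    intro x hx
    exact pr_nondeg_left hD x fun y => LinearMap.congr_fun hx y
  have e1 : Module.finrank E (R.H.obj Sᘁ) ≤ Module.finrank E (R.H.obj S) := by
    have := LinearMap.finrank_le_finrank_of_injective hL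
    rwa [Subspace.dual_finrank_eq] at this
  have e2 : Module.finrank E (R.H.obj S) ≤ Module.finrank E (R.H.obj Sᘁ) := by
    have := LinearMap.finrank_le_finrank_of_injective hL'
    rwa [Subspace.dual_finrank_eq] at this
  have e3 : Function.Surjective L := by
    rw [← LinearMap.range_eq_top]
    apply Submodule.eq_top_of_finrank_eq
    rw [LinearMap.finrank_range_of_inj hL, Subspace.dual_finrank_eq]
    omega
  let b := Module.finBasis E (R.H.obj S)
  choose y hy using fun i => e3 (b.coord i)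
  refine ⟨∑ i, ex R (f (b i)) (y i), ?_⟩
  rw [← conB_apply, map_sum]
  apply b.ext
  intro j
  rw [LinearMap.sum_apply]
  simp only [conB_apply, con_ex]
  have h1 : ∀ i, pr R (y i) (b j) = if i = j then 1 else 0 := by
    intro i
    have := LinearMap.congr_fun (hy i) (b j)
    have h2 : L (y i) (b j) = pr R (y i) (b j) := rfl
    rw [← h2, this, Module.Basis.coord_apply, Module.Basis.repr_self, Finsupp.single_apply]
    simp [eq_comm]
  simp [h1]

lemma con_ap {M S : C} (g : Γ) (z : R.H.obj (M ⊗ Sᘁ)) (v : R.H.obj S) :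
    con R M S (a.ap g _ z) (a.ap g S v) = a.ap g M (con R M S z v) := by
  change hm R _ (ex R (a.ap g _ z) (a.ap g S v)) = a.ap g M (hm R _ (ex R z v))
  rw [← ap_ex, ap_hm]

lemma eqv_con {M S : C} {z : R.H.obj (M ⊗ Sᘁ)} (hz : Ivt a _ z) : Eqv a S M (con R M S z) := by
  intro g v
  rw [← con_ap, hz g]

lemma ivt_of_eqv (hD : DualityCompatible R) {M S : C} (hM : Nn R M) (hS : Np R S)
    {z : R.H.obj (M ⊗ Sᘁ)} (hz : Eqv a S M (con R M S z)) : Ivt a _ z := by
  intro g
  rw [← sub_eq_zero]
  apply con_inj hD hM hS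
  rw [← conB_apply, map_sub, conB_apply, conB_apply]
  ext v
  obtain ⟨v, rfl⟩ := ap_surjective (a := a) g S v
  rw [LinearMap.sub_apply, con_ap, hz g v, sub_self]
  rfl

end

end Pool.Agent.U735.SO
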