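import Pool.Agent.U735.IL.Defs

/-!
# Constructible motives over a function field `K` of a variety over `k`: definitions
-/

set_option autoImplicit false

open CategoryTheory Limits MonoidalCategory Pretriangulated Triangulated

namespace Pool.Agent.U735.SO

open Pool.Agent.Y116.MT Pool.Agent.V1178.MT

universe v u v₀ u₀ w

section

variable {C : Type u} [Category.{v} C] [Preadditive C] [HasZeroObject C] [HasShift C ℤ]
  [∀ n : ℤ, (shiftFunctor C n).Additive] [Pretriangulated C] [MonoidalCategory C]
  [SymmetricCategory C] [TensorTriangulated C] {E : Type w} [Field E]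

/-- An action of the group `Γ` on the realisation `R` (for the category of constructible motives
over a function field `K` of a variety over `k`: the geometric Galois group, i.e. the absolute
Galois group of the compositum of `K` and a separable closure of `k`, acting on the `l`-adic
cohomology groups): the elements of `Γ` act by tensor automorphisms of the functor `H`. -/
structure GalAct (Γ : Type*) [Group Γ] (R : Realisation C E) where
  /-- the action -/
  act : Γ →* Aut R.H
  monoidal (g : Γ) : (act g).hom.IsMonoidal

variable {Γ : Type*} [Group Γ] {R : Realisation C E}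

/-- The action of an element of the group on a cohomology group. -/
noncomputable def GalAct.ap (a : GalAct Γ R) (g : Γ) (X : C) : R.H.obj X →ₗ[E] R.H.obj X :=
  ((a.act g).hom.app X).hom

/-- The subspace `U` of `H(X)` is stable under the group. -/
def GalAct.Stable (a : GalAct Γ R) (X : C) (U : Submodule E (R.H.obj X)) : Prop :=
  ∀ (g : Γ), ∀ x ∈ U, a.ap g X x ∈ U

/-- The representation `H(X)` is semisimple: each stable subspace has a stable complement. -/
def GalAct.Semisimple (a : GalAct Γ R) (X : C) : Prop :=
  ∀ U : Submodule E (R.H.obj X), a.Stable X U → ∃ U' : Submodule E (R.H.obj X),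
    a.Stable X U' ∧ IsCompl U U'

variable [RightRigidCategory C]

/-- The realisation is compatible with duality: the pairing `H(Xᘁ) ⊗ H(X) ⟶ H(Xᘁ ⊗ X) ⟶ H(𝟙)` is
perfect. -/
def DualityCompatible (R : Realisation C E) : Prop :=
  ∀ X : C,
    (∀ x : R.H.obj X, (∀ y : R.H.obj Xᘁ, (Functor.LaxMonoidal.μ R.H Xᘁ X ≫
      R.H.map (ε_ X Xᘁ)).hom (TensorProduct.tmul E y x) = 0) → x = 0) ∧
    (∀ y : R.H.obj Xᘁ, (∀ x : R.H.obj X, (Functor.LaxMonoidal.μ R.H Xᘁ X ≫
      R.H.map (ε_ X Xᘁ)).hom (TensorProduct.tmul E y x) = 0) → y = 0)

end

section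

variable {C₀ : Type u₀} [Category.{v₀} C₀] [Preadditive C₀] [HasZeroObject C₀] [HasShift C₀ ℤ]
  [∀ n : ℤ, (shiftFunctor C₀ n).Additive] [Pretriangulated C₀] [MonoidalCategory C₀]
  [SymmetricCategory C₀] [TensorTriangulated C₀]
  {C : Type u} [Category.{v} C] [Preadditive C] [HasZeroObject C] [HasShift C ℤ]
  [∀ n : ℤ, (shiftFunctor C n).Additive] [Pretriangulated C] [MonoidalCategory C]
  [SymmetricCategory C] [TensorTriangulated C] {E : Type w} [Field E]
  {Γ : Type*} [Group Γ]

/-- The base change functor `G` from the constructible motives over `k` to those over a function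
field `K` of a smooth geometrically connected variety over `k`, with the realisations `R₀` and `R`
and the action of the geometric Galois group `Γ` on `R`.

* `iso`: the realisation of `G(A)` is the realisation of `A`, compatibly with tensor products;
* `trivial`: the group `Γ` acts trivially on the cohomology of `G(A)`;
* `spread`: if `H^i(Z) = 0` for `i < 0`, then every morphism `f : G(A) ⟶ Z` factors through the
  counit `c : G(N) ⟶ Z` of the push-forward `N` to `k` of a spreading out of `Z` over a smooth
  variety `U` with function field `K`, on which the cohomology of `Z` is lisse. So `H^i(N)` (the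
  cohomology of `U` over the separable closure of `k` with coefficients in `Z`) is zero for `i < 0`,
  and `H^0(c)` is injective with image the invariants of `Γ` in `H^0(Z)`. -/
structure FunctionField (G : C₀ ⥤ C) [G.Monoidal] (R₀ : Realisation C₀ E) (R : Realisation C E)
    (a : GalAct Γ R) where
  /-- the comparison of the realisations -/
  iso : G ⋙ R.H ≅ R₀.H
  monoidal : iso.hom.IsMonoidal
  trivial (g : Γ) (A : C₀) : (a.act g).hom.app (G.obj A) = 𝟙 _
  spread (Z : C) (hZ : ∀ i : ℤ, i < 0 → IsZero (R.H.obj (Z⟦i⟧))) (A : C₀) (f : G.obj A ⟶ Z) :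
    ∃ (N : C₀) (b : A ⟶ N) (c : G.obj N ⟶ Z), f = G.map b ≫ c ∧
      (∀ i : ℤ, i < 0 → IsZero (R₀.H.obj (N⟦i⟧))) ∧
      Function.Injective (R.H.map c).hom ∧
      ∀ x : R.H.obj Z, (∀ g : Γ, a.ap g Z x = x) → ∃ y, (R.H.map c).hom y = x

end

end Pool.Agent.U735.SO
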