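import Pool.Agent.U735.SO.Defs
import Pool.Agent.U735.TC.Main
import Pool.Agent.U735.TB.Coh

/-!
# Calculus of elements of the cohomology groups
-/

set_option autoImplicit false
set_option linter.unusedSectionVars false
set_option linter.unusedSimpArgs false
set_option backward.isDefEq.respectTransparency false
set_option backward.defeqAttrib.useBackward true

open CategoryTheory Limits MonoidalCategory Pretriangulated Triangulated TensorProduct

namespace Pool.Agent.U735.SO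

open Pool.Agent.Y116.MT Pool.Agent.V1178.MT Pool.Agent.U735.IL

universe v u v₀ u₀ w

open Functor.LaxMonoidal

section

variable {C : Type u} [Category.{v} C] [Preadditive C] [HasZeroObject C] [HasShift C ℤ]
  [∀ n : ℤ, (shiftFunctor C n).Additive] [Pretriangulated C] [MonoidalCategory C]
  [SymmetricCategory C] [TensorTriangulated C] {E : Type w} [Field E]
  (R : Realisation C E)

/-- The map on cohomology. -/
noncomputable def hm {X Y : C} (f : X ⟶ Y) : R.H.obj X →ₗ[E] R.H.obj Y := (R.H.map f).hom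

/-- The exterior product of cohomology classes. -/
noncomputable def ex {X Y : C} (x : R.H.obj X) (y : R.H.obj Y) : R.H.obj (X ⊗ Y) :=
  (μ R.H X Y).hom (x ⊗ₜ[E] y)

/-- The unit of the cohomology of the unit. -/
noncomputable def un : R.H.obj (𝟙_ C) := (ε R.H).hom (1 : E)

variable {R}

@[simp] lemma hm_id (X : C) (x : R.H.obj X) : hm R (𝟙 X) x = x := by
  simp [hm]

@[simp] lemma hm_comp {X Y Z : C} (f : X ⟶ Y) (g : Y ⟶ Z) (x : R.H.obj X) :
    hm R (f ≫ g) x = hm R g (hm R f x) := by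
  simp [hm]

@[simp] lemma hm_zero {X Y : C} (x : R.H.obj X) : hm R (0 : X ⟶ Y) x = 0 := by
  simp [hm]

lemma hm_add {X Y : C} (f g : X ⟶ Y) (x : R.H.obj X) :
    hm R (f + g) x = hm R f x + hm R g x := by
  simp [hm, Functor.map_add]

lemma hm_sub {X Y : C} (f g : X ⟶ Y) (x : R.H.obj X) :
    hm R (f - g) x = hm R f x - hm R g x := by
  simp [hm, Functor.map_sub]

lemma hm_hom_inv {X Y : C} (e : X ≅ Y) (x : R.H.obj X) : hm R e.inv (hm R e.hom x) = x := by
  rw [← hm_comp, e.hom_inv_id, hm_id]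

lemma hm_inv_hom {X Y : C} (e : X ≅ Y) (x : R.H.obj Y) : hm R e.hom (hm R e.inv x) = x := by
  rw [← hm_comp, e.inv_hom_id, hm_id]

lemma ex_add_left {X Y : C} (x x' : R.H.obj X) (y : R.H.obj Y) :
    ex R (x + x') y = ex R x y + ex R x' y := by
  simp [ex, add_tmul]

lemma ex_add_right {X Y : C} (x : R.H.obj X) (y y' : R.H.obj Y) :
    ex R x (y + y') = ex R x y + ex R x y' := by
  simp [ex, tmul_add]

lemma ex_smul_left {X Y : C} (c : E) (x : R.H.obj X) (y : R.H.obj Y) :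
    ex R (c • x) y = c • ex R x y := by
  simp [ex, ← smul_tmul']

lemma ex_smul_right {X Y : C} (c : E) (x : R.H.obj X) (y : R.H.obj Y) :
    ex R x (c • y) = c • ex R x y := by
  simp [ex]

@[simp] lemma ex_zero_left {X Y : C} (y : R.H.obj Y) : ex R (0 : R.H.obj X) y = 0 := by
  simp [ex]

@[simp] lemma ex_zero_right {X Y : C} (x : R.H.obj X) : ex R x (0 : R.H.obj Y) = 0 := by
  simp [ex]

lemma ex_sum_left {X Y : C} {ι : Type*} (s : Finset ι) (x : ι → R.H.obj X) (y : R.H.obj Y) :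
    ex R (∑ i ∈ s, x i) y = ∑ i ∈ s, ex R (x i) y := by
  simp [ex, sum_tmul, map_sum]

lemma ex_sum_right {X Y : C} {ι : Type*} (s : Finset ι) (x : R.H.obj X) (y : ι → R.H.obj Y) :
    ex R x (∑ i ∈ s, y i) = ∑ i ∈ s, ex R x (y i) := by
  simp [ex, tmul_sum, map_sum]

@[simp] lemma hm_tensor {X Y X' Y' : C} (f : X ⟶ X') (g : Y ⟶ Y') (x : R.H.obj X)
    (y : R.H.obj Y) : hm R (f ⊗ₘ g) (ex R x y) = ex R (hm R f x) (hm R g y) :=
  (LinearMap.congr_fun (congrArg ModuleCat.Hom.hom (μ_natural R.H f g)) (x ⊗ₜ[E] y)).symm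

@[simp] lemma hm_left {X X' : C} (f : X ⟶ X') (Y : C) (x : R.H.obj X)
    (y : R.H.obj Y) : hm R (f ▷ Y) (ex R x y) = ex R (hm R f x) y := by
  rw [← MonoidalCategory.tensorHom_id, hm_tensor, hm_id]

@[simp] lemma hm_right (X : C) {Y Y' : C} (g : Y ⟶ Y') (x : R.H.obj X)
    (y : R.H.obj Y) : hm R (X ◁ g) (ex R x y) = ex R x (hm R g y) := by
  rw [← MonoidalCategory.id_tensorHom, hm_tensor, hm_id]

@[simp] lemma hm_assoc (X Y Z : C) (x : R.H.obj X) (y : R.H.obj Y) (z : R.H.obj Z) :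
    hm R (α_ X Y Z).hom (ex R (ex R x y) z) = ex R x (ex R y z) :=
  LinearMap.congr_fun (congrArg ModuleCat.Hom.hom
    (Functor.LaxMonoidal.associativity (F := R.H) X Y Z)) ((x ⊗ₜ[E] y) ⊗ₜ[E] z)

@[simp] lemma hm_assoc_inv (X Y Z : C) (x : R.H.obj X) (y : R.H.obj Y) (z : R.H.obj Z) :
    hm R (α_ X Y Z).inv (ex R x (ex R y z)) = ex R (ex R x y) z := by
  rw [← hm_assoc, hm_hom_inv]

@[simp] lemma hm_braid (X Y : C) (x : R.H.obj X) (y : R.H.obj Y) :
    hm R (β_ X Y).hom (ex R x y) = ex R y x :=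
  LinearMap.congr_fun (congrArg ModuleCat.Hom.hom
    (Functor.LaxBraided.braided (F := R.H) X Y)) (x ⊗ₜ[E] y)

@[simp] lemma hm_lam (X : C) (x : R.H.obj X) :
    hm R (λ_ X).hom (ex R (un R) x) = x := by
  have h := LinearMap.congr_fun (congrArg ModuleCat.Hom.hom
    (Functor.LaxMonoidal.left_unitality R.H X)) ((1 : E) ⊗ₜ[E] x)
  refine h.symm.trans ?_
  exact one_smul E x

@[simp] lemma hm_rho (X : C) (x : R.H.obj X) :
    hm R (ρ_ X).hom (ex R x (un R)) = x := by
  have h := LinearMap.congr_fun (congrArg ModuleCat.Hom.hom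
    (Functor.LaxMonoidal.right_unitality R.H X)) (x ⊗ₜ[E] (1 : E))
  refine h.symm.trans ?_
  exact one_smul E x

@[simp] lemma hm_lam_inv (X : C) (x : R.H.obj X) :
    hm R (λ_ X).inv x = ex R (un R) x := by
  conv_lhs => rw [← hm_lam X x]
  rw [hm_hom_inv]

@[simp] lemma hm_rho_inv (X : C) (x : R.H.obj X) :
    hm R (ρ_ X).inv x = ex R x (un R) := by
  conv_lhs => rw [← hm_rho X x]
  rw [hm_hom_inv]

variable (R) in
/-- The cohomology of the unit is the coefficient field. -/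
noncomputable def sc : R.H.obj (𝟙_ C) →ₗ[E] E := (inv (ε R.H)).hom

@[simp] lemma sc_un : sc R (un R) = 1 :=
  LinearMap.congr_fun (congrArg ModuleCat.Hom.hom (IsIso.hom_inv_id (ε R.H))) (1 : E)

lemma eq_sc (x : R.H.obj (𝟙_ C)) : x = sc R x • un R := by
  have h1 : (ε R.H).hom (sc R x) = x :=
    LinearMap.congr_fun (congrArg ModuleCat.Hom.hom (IsIso.inv_hom_id (ε R.H))) x
  have h2 : (ε R.H).hom (sc R x • (1 : E)) = sc R x • un R := map_smul _ _ _
  rw [smul_eq_mul, mul_one] at h2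
  rw [← h2, h1]

lemma sc_inj {x y : R.H.obj (𝟙_ C)} (h : sc R x = sc R y) : x = y := by
  rw [eq_sc x, eq_sc y, h]

@[simp] lemma hm_lam' (X : C) (w : R.H.obj (𝟙_ C)) (x : R.H.obj X) :
    hm R (λ_ X).hom (ex R w x) = sc R w • x := by
  conv_lhs => rw [eq_sc w]
  rw [ex_smul_left, map_smul, hm_lam]

@[simp] lemma hm_rho' (X : C) (x : R.H.obj X) (w : R.H.obj (𝟙_ C)) :
    hm R (ρ_ X).hom (ex R x w) = sc R w • x := by
  conv_lhs => rw [eq_sc w]
  rw [ex_smul_right, map_smul, hm_rho]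

lemma hm_ext_zero {X Y : C} {f : X ⟶ Y} (h : ∀ x, hm R f x = 0) : R.H.map f = 0 := by
  apply ModuleCat.hom_ext
  ext x
  exact h x

lemma isIso_iff_bij {X Y : C} (f : X ⟶ Y) : IsIso (R.H.map f) ↔ Function.Bijective (hm R f) :=
  ConcreteCategory.isIso_iff_bijective _

/-- Cohomology in degrees `≥ 0`. -/
def Nn (R : Realisation C E) (X : C) : Prop := ∀ i : ℤ, i < 0 → IsZero (R.H.obj (X⟦i⟧))

/-- Cohomology in degrees `≤ 0`. -/
def Np (R : Realisation C E) (X : C) : Prop := ∀ i : ℤ, 0 < i → IsZero (R.H.obj (X⟦i⟧))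

lemma Nn.iso {X Y : C} (h : Nn R X) (e : X ≅ Y) : Nn R Y := fun i hi =>
  (h i hi).of_iso (R.H.mapIso ((shiftFunctor C i).mapIso e.symm))

lemma Np.iso {X Y : C} (h : Np R X) (e : X ≅ Y) : Np R Y := fun i hi =>
  (h i hi).of_iso (R.H.mapIso ((shiftFunctor C i).mapIso e.symm))

lemma Nn.of_deg {X : C} (h : R.Deg X 0) : Nn R X := fun i hi => h i (by omega)

lemma Np.of_deg {X : C} (h : R.Deg X 0) : Np R X := fun i hi => h i (by omega)

lemma deg_of {X : C} (h : Nn R X) (h' : Np R X) : R.Deg X 0 := fun i hi => by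
  rcases lt_or_gt_of_ne hi with h1 | h1
  · exact h i h1
  · exact h' i h1

lemma deg_un : R.Deg (𝟙_ C) 0 := deg_unit

/-- The Künneth formula for the lowest cohomology groups. -/
lemma mu_iso {X Y : C} (hX : Nn R X) (hY : Nn R Y) : IsIso (μ R.H X Y) := by
  have h1 := toModule_single_bij (E := E)
    (M := fun i : ℤ => (R.H.obj (X⟦i⟧) ⊗ R.H.obj (Y⟦-i⟧) : ModuleCat.{w} E))
    (fun i : ℤ => (μ R.H (X⟦i⟧) (Y⟦-i⟧) ≫ R.H.map (shiftTensorIso X Y i).hom).hom) 0
    (fun i hi => by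
      rcases lt_or_gt_of_ne hi with h | h
      · exact tensor_subsingleton_left (hX i h)
      · exact tensor_subsingleton_right (hY (-i) (by omega))) (R.kunneth X Y)
  have h2 : IsIso (μ R.H (X⟦(0 : ℤ)⟧) (Y⟦-(0 : ℤ)⟧) ≫ R.H.map (shiftTensorIso X Y 0).hom) :=
    (ConcreteCategory.isIso_iff_bijective _).2 h1
  have h3 := IsIso.of_isIso_comp_right (μ R.H (X⟦(0 : ℤ)⟧) (Y⟦-(0 : ℤ)⟧))
    (R.H.map (shiftTensorIso X Y 0).hom)
  exact (isIso_mu_iff ((shiftFunctorZero C ℤ).app X)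
    ((shiftFunctorZero' C (-0 : ℤ) (by simp)).app Y)).1 h3

/-- Every class in the lowest cohomology group of a tensor product is a sum of products. -/
lemma exists_sum {X Y : C} (hX : Nn R X) (hY : Nn R Y) (z : R.H.obj (X ⊗ Y)) :
    ∃ (n : ℕ) (x : Fin n → R.H.obj X) (y : Fin n → R.H.obj Y),
      z = ∑ i, ex R (x i) (y i) := by
  have h := mu_iso hX hY
  obtain ⟨t, rfl⟩ := ((ConcreteCategory.isIso_iff_bijective (μ R.H X Y)).1 h).2 z
  obtain ⟨n, s, hs⟩ : ∃ (n : ℕ) (s : Fin n → R.H.obj X × R.H.obj Y),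
      t = ∑ i, (s i).1 ⊗ₜ[E] (s i).2 := by
    induction t using TensorProduct.induction_on with
    | zero => exact ⟨0, Fin.elim0, by simp⟩
    | tmul x y => exact ⟨1, fun _ => (x, y), by simp⟩
    | add a b ha hb =>
      obtain ⟨n, s, rfl⟩ := ha
      obtain ⟨m, s', rfl⟩ := hb
      refine ⟨n + m, Fin.append s s', ?_⟩
      rw [Fin.sum_univ_add]
      simp
  refine ⟨n, fun i => (s i).1, fun i => (s i).2, ?_⟩
  rw [hs]
  exact map_sum (μ R.H X Y).hom _ _

/-- A linear map on the lowest cohomology group of a tensor product is zero if it vanishes on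
products. -/
lemma ext_ex {X Y : C} (hX : Nn R X) (hY : Nn R Y) {M : Type*} [AddCommGroup M] [Module E M]
    {f g : R.H.obj (X ⊗ Y) →ₗ[E] M} (h : ∀ x y, f (ex R x y) = g (ex R x y)) : f = g := by
  ext z
  obtain ⟨n, x, y, rfl⟩ := exists_sum hX hY z
  simp [map_sum, h]

end

end Pool.Agent.U735.SO
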