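import Pool.Agent.U735.SO.Defs
import Pool.Agent.U435.UD.Sys

/-!
# Constructible motives over all extensions of a field: definitions
-/

set_option autoImplicit false
set_option linter.checkUnivs false

open CategoryTheory Limits MonoidalCategory Pretriangulated Triangulated IntermediateField

namespace Pool.Agent.U735.SO

open Pool.Agent.Y116.MT Pool.Agent.U435.UD Pool.Agent.U735.IL

universe v u w x y

/-- The known properties of the categories of constructible motives `M` over a field `k` and `N`
over the function field `K` of a smooth geometrically connected variety over `k` (we need purely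
transcendental extensions only), for the prime number `l`:

* the endomorphisms of the unit are rational numbers;
* `chow`: the Chow motives over `K`, with the Lefschetz object `T`;
* `dual`: the realisation `R l` commutes with duality;
* `act`: the geometric Galois group acts on the cohomology groups over `K`, and the cohomology
  groups of Chow motives are semisimple representations (Deligne);
* `G`, `field`: the base change, the comparison and the spreading out. -/
structure FunctionFieldData {Λ : Type} {E : Λ → Type w} [∀ l, Field (E l)]
    (M N : MotCat.{v, u} Λ E) (l : Λ) where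
  [linear : Linear ℚ N.C]
  scalars (e : 𝟙_ N.C ⟶ 𝟙_ N.C) : ∃ q : ℚ, e = q • 𝟙 (𝟙_ N.C)
  /-- the class of Chow motives -/
  Chow : ObjectProperty N.C
  /-- the Lefschetz object -/
  T : N.C
  chow : ChowMotives Chow T N.R
  chowT : Chow T
  dual : DualityCompatible (N.R l)
  /-- the geometric Galois group -/
  Γ : Type y
  [group : Group Γ]
  /-- the action on the cohomology -/
  act : GalAct Γ (N.R l)
  semisimple (P : N.C) (n : ℤ) : Chow P → act.Semisimple (P⟦n⟧)
  /-- the base change functor -/
  G : M.C ⥤ N.C
  [monoidal : G.Monoidal]
  [additive : G.Additive]
  [commShift : G.CommShift ℤ]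
  /-- the comparison of the realisations and the spreading out -/
  field : FunctionField G (M.R l) (N.R l) act

/-- The categories of constructible motives over all extensions of a field `F` (for a prime field:
all fields of one characteristic), with base change functors, push-forward for finite extensions,
such that every object is defined over a finitely generated subextension. -/
structure FieldSystem (F : Type x) [Field F] (Λ : Type) (E : Λ → Type w)
    [∀ l, Field (E l)] where
  /-- the motives over `K` -/
  mot (K : Type x) [Field K] [Algebra F K] : MotCat.{v, u} Λ E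
  /-- the base change -/
  bc {K L : Type x} [Field K] [Algebra F K] [Field L] [Algebra F L] (f : K →ₐ[F] L) :
    BaseChange (mot K) (mot L)
  push {K L : Type x} [Field K] [Algebra F K] [Field L] [Algebra F L] (f : K →ₐ[F] L) :
    f.toRingHom.Finite → Nonempty (PushForward (bc f))
  defined (K : Type x) [Field K] [Algebra F K] (Y : (mot K).C) :
    ∃ (s : Finset K) (X : (mot (adjoin F (s : Set K))).C),
      Nonempty ((bc (adjoin F (s : Set K)).val).F.obj X ≅ Y)

variable {F : Type x} [Field F] {Λ : Type} {E : Λ → Type w} [∀ l, Field (E l)]
  (𝓜 : FieldSystem.{v, u, w, x} F Λ E)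

/-- From purely transcendental extensions to all extensions. -/
theorem FieldSystem.all_of_purelyTr [Nonempty Λ]
    (h : ∀ (K : Type x) [Field K] [Algebra F K], PurelyTr F K → HasMotivic (𝓜.mot K))
    (K : Type x) [Field K] [Algebra F K] : HasMotivic (𝓜.mot K) := by
  refine union fun Y => ?_
  obtain ⟨s, X, hX⟩ := 𝓜.defined K Y
  refine ⟨_, 𝓜.bc (adjoin F (s : Set K)).val, X, ?_, hX⟩
  have : Algebra.EssFiniteType F (adjoin F (s : Set K)) :=
    (IntermediateField.essFiniteType_iff).2 ⟨s, rfl⟩
  obtain ⟨t, ht, hfin⟩ := exists_base (F := F) (adjoin F (s : Set K))
  have h1 : HasMotivic (𝓜.mot (adjoin F (t : Set (adjoin F (s : Set K))))) :=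
    h _ (purelyTr_adjoin t ht.1)
  obtain ⟨P⟩ := 𝓜.push (adjoin F (t : Set (adjoin F (s : Set K)))).val
    ((RingHom.finite_algebraMap (A := adjoin F (t : Set (adjoin F (s : Set K))))
      (B := adjoin F (s : Set K))).2 hfin)
  exact ascent P h1

end Pool.Agent.U735.SO
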