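import Pool.Agent.U735.SO.Base
import Pool.Agent.U735.SO.Asm
import Pool.Agent.U735.SO.Sys
import Pool.Agent.U603.SO.LA
import Pool.Agent.U928.SO.PERF
import Pool.Agent.U978.SO.DUAL
import Pool.Agent.U876.SO.SPLIT
import Pool.Agent.U194.SO.PART
import Pool.Agent.U606.SO.DEV
import Pool.Agent.U678.SO.SUB
import Pool.Agent.U15.SO.KAPPA

/-!
# The motivic t-structure over a function field
-/

set_option autoImplicit false
set_option linter.unusedSectionVars false
set_option linter.checkUnivs false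

open CategoryTheory Limits MonoidalCategory Pretriangulated Triangulated TensorProduct

namespace Pool.Agent.U735.SO

open Pool.Agent.Y116.MT Pool.Agent.V1178.MT Pool.Agent.U735.IL Pool.Agent.U735.TC
  Pool.Agent.U435.UD

universe v u v₀ u₀ w x y

section

variable {C₀ : Type u₀} [Category.{v₀} C₀] [Preadditive C₀] [HasZeroObject C₀] [HasShift C₀ ℤ]
  [∀ n : ℤ, (shiftFunctor C₀ n).Additive] [Pretriangulated C₀] [IsTriangulated C₀]
  [MonoidalCategory C₀] [SymmetricCategory C₀] [TensorTriangulated C₀] [MonoidalPreadditive C₀]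
  [RightRigidCategory C₀]
  {C : Type u} [Category.{v} C] [Preadditive C] [HasZeroObject C] [HasShift C ℤ]
  [∀ n : ℤ, (shiftFunctor C n).Additive] [Pretriangulated C] [IsTriangulated C]
  [MonoidalCategory C] [SymmetricCategory C] [TensorTriangulated C] [MonoidalPreadditive C]
  [RightRigidCategory C] [IsIdempotentComplete C] [Linear ℚ C]
  {Λ : Type*} {E : Λ → Type w} [∀ l, Field (E l)]
  {R₀ : ∀ l, Realisation C₀ (E l)} {R : ∀ l, Realisation C (E l)}
  {Γ : Type y} [Group Γ] {G : C₀ ⥤ C} [G.Monoidal] [G.Additive] [G.CommShift ℤ]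
  {Chow : ObjectProperty C} {T : C}

/-- The motivic t-structure over a function field. -/
theorem motivic_functionField
    (hid₀ : ∀ e : 𝟙_ C₀ ⟶ 𝟙_ C₀, e ≫ e = e → e = 0 ∨ e = 𝟙 _)
    (hQ : ∀ e : 𝟙_ C ⟶ 𝟙_ C, ∃ q : ℚ, e = q • 𝟙 (𝟙_ C))
    (hC : ChowMotives Chow T R) (hT : Chow T) (l : Λ) (a : GalAct Γ (R l))
    (hD : DualityCompatible (R l))
    (hss : ∀ (P : C) (n : ℤ), Chow P → a.Semisimple (P⟦n⟧))
    (F : FunctionField G (R₀ l) (R l) a)
    (h : ∃ t₀ : TStructure C₀, IsMotivic t₀ R₀) : ∃ t : TStructure C, IsMotivic t R := by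
  obtain ⟨t₀, ht₀⟩ := h
  have hG : Good t₀ (R₀ l) := good_of_motivic hid₀ ht₀ l
  have hI := t_INV hG F
  have hFull := t_FULL hG hI F
  have hF := t_FAITH hG hI F hD
  have hc := t_CONS hF
  have hDual := Pool.Agent.U978.SO.t_DUAL hG F hFull
  have hKey := t_KEY hI hDual
  have hSplit := Pool.Agent.U876.SO.t_SPLIT hF hKey Pool.Agent.U928.SO.t_PERF hD
  have hPart := Pool.Agent.U194.SO.t_PART l a hC hT hss hF hSplit hD
  have hDev : S_DEV Chow a := Pool.Agent.U606.SO.t_DEV hC.generate hss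
  obtain ⟨_⟩ := ratAlgebra (R l)
  have h0 : CharZero (E l) := algebraRat.charZero (E l)
  have hKappa : S_KAPPA t₀ G a :=
    Pool.Agent.U15.SO.t_KAPPA hG F hD hI hDual Pool.Agent.U928.SO.t_PERF
  have hSub := Pool.Agent.U678.SO.t_SUB hG F hD hF hc hKappa Pool.Agent.U603.SO.t_LA
  obtain ⟨t, ht⟩ := exists_tstr (unit_idem hQ) hC.toChowClosed hss hc hPart hDev hSub
  exact ⟨t, motivic_of_one hQ hC hc ht⟩

end

section

variable {Λ : Type} {E : Λ → Type w} [∀ l, Field (E l)]

/-- A motivic t-structure over `k` gives one over the function field `K`. -/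
theorem FunctionFieldData.hasMotivic {M N : MotCat.{v, u} Λ E} {l : Λ}
    (d : FunctionFieldData.{v, u, w, y} M N l) (h : HasMotivic M) : HasMotivic N := by
  obtain ⟨scalars, Chow, T, chow, chowT, dual, Γ, act, semisimple, G, field⟩ := d
  exact motivic_functionField M.unit scalars chow chowT l act dual semisimple field h

variable {F : Type x} [Field F] (𝓜 : FieldSystem.{v, u, w, x} F Λ E)

/-- The motivic t-structure over all extensions. -/
theorem FieldSystem.iff_base [Nonempty Λ]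
    (h : ∀ (K : Type x) [Field K] [Algebra F K], PurelyTr F K →
      ∃ l : Λ, Nonempty (FunctionFieldData.{v, u, w, y} (𝓜.mot F) (𝓜.mot K) l)) :
    HasMotivic (𝓜.mot F) ↔ ∀ (K : Type x) [Field K] [Algebra F K], HasMotivic (𝓜.mot K) := by
  refine ⟨fun h0 => 𝓜.all_of_purelyTr fun K _ _ hK => ?_, fun h0 => h0 F⟩
  obtain ⟨l, ⟨d⟩⟩ := h K hK
  exact d.hasMotivic h0

end

end Pool.Agent.U735.SO
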